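import Pool.Agent.H3.Tens.Counter

/-!
The exponential growth rate of `r(m,n)` for all `m ≥ 3` (problem MP_51d02f_co).
-/

namespace Pool.Agent.Results.MP_51d02f_co.GrowthRate

open MP51d02f Set Filter Topology

/-- Lower bound in terms of the block length `b = 2c`. -/
theorem log_lower {m n c : ℕ} (hm : 3 ≤ m) (hn : 2 ≤ n) (hc : 1 ≤ c) :
    (n : ℝ) - 12 * c * 4 ^ c - n * (2 + Real.logb 2 c) / (2 * c) ≤ Real.logb 2 (r m n) := by
  have hcR : (1 : ℝ) ≤ c := by exact_mod_cast hc
  have hr1 : (1 : ℝ) ≤ r m n := by exact_mod_cast one_le_r hm hn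
  have hr0 : 0 ≤ Real.logb 2 (r m n) := Real.logb_nonneg (by norm_num) hr1
  have hlc : 0 ≤ Real.logb 2 (c : ℝ) := Real.logb_nonneg (by norm_num) hcR
  have hnR : (0 : ℝ) ≤ n := Nat.cast_nonneg n
  have hquot : 0 ≤ (n : ℝ) * (2 + Real.logb 2 c) / (2 * c) := by positivity
  -- the trivial case
  by_cases hsmall : n < 2 * c + (3 * (2 * c) * 2 ^ (2 * c) + 2)
  · have h4 : (n : ℝ) ≤ 12 * c * 4 ^ c := by
      have h5 : (n : ℝ) ≤ 2 * c + (3 * (2 * c) * 2 ^ (2 * c) + 2) := by
        exact_mod_cast hsmall.le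
      have h6 : (2 : ℝ) ^ (2 * c) = 4 ^ c := by rw [pow_mul]; norm_num
      rw [h6] at h5
      have h7 : (4 : ℝ) ≤ 4 ^ c := by
        calc (4 : ℝ) = 4 ^ 1 := by norm_num
          _ ≤ 4 ^ c := pow_le_pow_right₀ (by norm_num) hc
      nlinarith [mul_le_mul hcR h7 (by norm_num) (by positivity)]
    linarith
  push Not at hsmall
  set D := Nat.centralBinom c - 1 with hD
  have hcb : 2 ≤ Nat.centralBinom c := Nat.two_le_centralBinom c hc
  have hD1 : D + 1 = Nat.centralBinom c := by omega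
  have hDpos : 0 < D := by omega
  set N' := (n - (3 * (2 * c) * 2 ^ (2 * c) + 2)) / (2 * c) with hN'
  have h2c : 0 < 2 * c := by omega
  have hNpos : 0 < N' := Nat.div_pos (by omega) h2c
  have hmul : N' * (2 * c) ≤ n - (3 * (2 * c) * 2 ^ (2 * c) + 2) := Nat.div_mul_le_self _ _
  have hlow := lower_bound (m := m) (n := n) (b := 2 * c) (h := c) (D := D) (N' := N') hm h2c
    hDpos hNpos (by rw [hD1, Nat.centralBinom]) (by omega)
  have hpow : (D : ℝ) ^ N' ≤ r m n := by
    have : D ^ N' ≤ r m n := by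
      refine le_trans ?_ hlow
      have : 1 * D ^ N' ≤ (N' + 1) * (2 * c) * D ^ N' := by
        apply Nat.mul_le_mul_right
        exact Nat.mul_pos (by omega) h2c
      simpa using this
    exact_mod_cast this
  have hDR : (0 : ℝ) < D := by exact_mod_cast hDpos
  have hlogpow : (N' : ℝ) * Real.logb 2 D ≤ Real.logb 2 (r m n) := by
    have := Real.logb_le_logb_of_le (b := 2) (by norm_num) (by positivity) hpow
    rwa [Real.logb_pow] at this
  -- size of D
  have hDlow : (4 : ℝ) ^ c ≤ 4 * c * D := by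
    have h1 : 4 ^ c ≤ 2 * c * Nat.centralBinom c :=
      Nat.four_pow_le_two_mul_self_mul_centralBinom c hc
    have h2 : 2 * c * Nat.centralBinom c ≤ 2 * c * (2 * D) :=
      Nat.mul_le_mul_left _ (by omega)
    have h3 : 4 ^ c ≤ 4 * c * D := by
      calc 4 ^ c ≤ 2 * c * (2 * D) := h1.trans h2
        _ = 4 * c * D := by ring
    exact_mod_cast h3
  have hlogD : 2 * (c : ℝ) - (2 + Real.logb 2 c) ≤ Real.logb 2 D := by
    have h1 := Real.logb_le_logb_of_le (b := 2) (by norm_num) (by positivity) hDlow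
    have h2 : Real.logb 2 ((4 : ℝ) ^ c) = 2 * c := by
      have : (4 : ℝ) ^ c = 2 ^ (2 * c) := by rw [pow_mul]; norm_num
      rw [this, Real.logb_pow, Real.logb_self_eq_one (by norm_num)]
      push_cast; ring
    have h3 : Real.logb 2 (4 * c * D) = 2 + Real.logb 2 c + Real.logb 2 D := by
      rw [Real.logb_mul (by positivity) (by positivity),
        Real.logb_mul (by norm_num) (by positivity)]
      have : Real.logb 2 (4 : ℝ) = 2 := by
        have h4 : (4 : ℝ) = 2 ^ 2 := by norm_num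
        rw [h4, Real.logb_pow, Real.logb_self_eq_one (by norm_num)]
        norm_num
      rw [this]
    rw [h2, h3] at h1
    linarith
  set l : ℝ := 2 + Real.logb 2 c with hl
  have hl0 : 0 ≤ l := by positivity
  -- `l ≤ 2c`
  have hl2c : l ≤ 2 * c := by
    have h1 : (4 : ℝ) * c ≤ 4 ^ c := by
      have : ∀ k : ℕ, 1 ≤ k → 4 * k ≤ 4 ^ k := by
        intro k hk
        induction k, hk using Nat.le_induction with
        | base => norm_num
        | succ k hk ih => rw [pow_succ]; omega
      exact_mod_cast this c hc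
    have h2 := Real.logb_le_logb_of_le (b := 2) (by norm_num) (by positivity) h1
    have h3 : Real.logb 2 ((4 : ℝ) ^ c) = 2 * c := by
      have : (4 : ℝ) ^ c = 2 ^ (2 * c) := by rw [pow_mul]; norm_num
      rw [this, Real.logb_pow, Real.logb_self_eq_one (by norm_num)]
      push_cast; ring
    have h4 : Real.logb 2 (4 * (c : ℝ)) = 2 + Real.logb 2 c := by
      rw [Real.logb_mul (by norm_num) (by positivity)]
      have : Real.logb 2 (4 : ℝ) = 2 := by
        have h4 : (4 : ℝ) = 2 ^ 2 := by norm_num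
        rw [h4, Real.logb_pow, Real.logb_self_eq_one (by norm_num)]
        norm_num
      rw [this]
    rw [h3, h4] at h2
    exact h2
  -- lower bound for N'
  have hNlow : (n : ℝ) - 12 * c * 4 ^ c ≤ N' * (2 * c) := by
    have h1 : n - (3 * (2 * c) * 2 ^ (2 * c) + 2) < (N' + 1) * (2 * c) := by
      have h0 : n - (3 * (2 * c) * 2 ^ (2 * c) + 2) < 2 * c * (N' + 1) :=
        Nat.lt_mul_div_succ (n - (3 * (2 * c) * 2 ^ (2 * c) + 2)) h2c
      calc n - (3 * (2 * c) * 2 ^ (2 * c) + 2) < 2 * c * (N' + 1) := h0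
        _ = (N' + 1) * (2 * c) := mul_comm _ _
    have h2 : n < (N' + 1) * (2 * c) + (3 * (2 * c) * 2 ^ (2 * c) + 2) := by omega
    have h3 : (n : ℝ) < (N' + 1) * (2 * c) + (3 * (2 * c) * 2 ^ (2 * c) + 2) := by
      exact_mod_cast h2
    have h6 : (2 : ℝ) ^ (2 * c) = 4 ^ c := by rw [pow_mul]; norm_num
    rw [h6] at h3
    have h7 : (4 : ℝ) ≤ 4 ^ c := by
      calc (4 : ℝ) = 4 ^ 1 := by norm_num
        _ ≤ 4 ^ c := pow_le_pow_right₀ (by norm_num) hc
    nlinarith [mul_le_mul hcR h7 (by norm_num) (by positivity)]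
  have hfin : (n : ℝ) - 12 * c * 4 ^ c - n * l / (2 * c) ≤ N' * (2 * c - l) := by
    have h2cR : (0 : ℝ) < 2 * c := by positivity
    have h1 : (n : ℝ) - 12 * c * 4 ^ c - n * l / (2 * c) ≤
        ((n : ℝ) - 12 * c * 4 ^ c) * (2 * c - l) / (2 * c) := by
      rw [le_div_iff₀ h2cR, sub_mul, div_mul_cancel₀ _ h2cR.ne']
      have : 0 ≤ 12 * (c : ℝ) * 4 ^ c * l := by positivity
      nlinarith
    refine h1.trans ?_
    rw [div_le_iff₀ h2cR]
    have h2 : 0 ≤ 2 * (c : ℝ) - l := by linarith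
    nlinarith [mul_le_mul_of_nonneg_right hNlow h2]
  calc (n : ℝ) - 12 * c * 4 ^ c - n * l / (2 * c) ≤ N' * (2 * c - l) := hfin
    _ ≤ N' * Real.logb 2 D := by
      apply mul_le_mul_of_nonneg_left hlogD
      positivity
    _ ≤ Real.logb 2 (r m n) := hlogpow

/-- The quantitative growth rate, uniform in `m ≥ 3`. -/
theorem growth {m n : ℕ} (hm : 3 ≤ m) (hn : 16 ≤ n) :
    (n : ℝ) - 80 * n * Real.log (Real.log n) / Real.log n ≤ Real.logb 2 (r m n) := by
  set c := Nat.log 16 n with hc
  have hn0 : n ≠ 0 := by omega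
  have hc1 : 1 ≤ c := by
    rw [hc]
    exact (Nat.le_log_iff_pow_le (by norm_num) hn0).2 (by simpa using hn)
  have hlow : 16 ^ c ≤ n := Nat.pow_log_le_self 16 hn0
  have hup : n < 16 ^ (c + 1) := Nat.lt_pow_succ_log_self (by norm_num) n
  have hmain := log_lower (m := m) (n := n) (c := c) hm (by omega) hc1
  have hcR : (1 : ℝ) ≤ c := by exact_mod_cast hc1
  have hnR : (16 : ℝ) ≤ n := by exact_mod_cast hn
  have hlow' : (16 : ℝ) ^ c ≤ n := by exact_mod_cast hlow
  have hup' : (n : ℝ) ≤ 16 ^ (c + 1) := by exact_mod_cast hup.le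
  have hl2a : (0.6931471803 : ℝ) < Real.log 2 := Real.log_two_gt_d9
  have hl2b : Real.log 2 < 0.6931471808 := Real.log_two_lt_d9
  have hl16 : Real.log 16 = 4 * Real.log 2 := by
    have : (16 : ℝ) = 2 ^ 4 := by norm_num
    rw [this, Real.log_pow]; norm_num
  have hlogn : Real.log 16 ≤ Real.log n := Real.log_le_log (by norm_num) hnR
  have hL : (0 : ℝ) < Real.log n := by rw [hl16] at hlogn; linarith
  -- `loglog n ≥ 1`
  have hLL : 1 ≤ Real.log (Real.log n) := by
    rw [Real.le_log_iff_exp_le hL]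
    have := Real.exp_one_lt_d9
    rw [hl16] at hlogn
    linarith
  -- `c ≤ log n` and `log n ≤ 6 c`
  have hcle : (c : ℝ) ≤ Real.log n := by
    have h1 := Real.log_le_log (by positivity) hlow'
    rw [Real.log_pow, hl16] at h1
    nlinarith
  have hLc : Real.log n ≤ 5.6 * c := by
    have h1 := Real.log_le_log (by positivity) hup'
    rw [Real.log_pow, hl16] at h1
    push_cast at h1
    nlinarith
  -- the error terms
  have hsq : (c : ℝ) * c ≤ 4 ^ c := by
    have : ∀ k : ℕ, k * k ≤ 4 ^ k := by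
      intro k
      have h1 : k < 2 ^ k := Nat.lt_two_pow_self
      calc k * k ≤ 2 ^ k * 2 ^ k := Nat.mul_le_mul h1.le h1.le
        _ = 4 ^ k := by rw [← mul_pow]; norm_num
    exact_mod_cast this c
  have h44 : (4 : ℝ) ^ c * 4 ^ c ≤ n := by
    rw [← mul_pow]; norm_num; exact hlow'
  have he1 : 12 * (c : ℝ) * 4 ^ c ≤ 12 * n / c := by
    rw [le_div_iff₀ (by positivity)]
    have : (c : ℝ) * c * 4 ^ c ≤ 4 ^ c * 4 ^ c := mul_le_mul_of_nonneg_right hsq (by positivity)
    nlinarith
  have hlogc : Real.logb 2 c ≤ 2 * Real.log (Real.log n) := by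
    have h1 : Real.log c ≤ Real.log (Real.log n) := Real.log_le_log (by positivity) hcle
    rw [Real.logb, div_le_iff₀ (by linarith)]
    nlinarith
  have he2 : (n : ℝ) * (2 + Real.logb 2 c) / (2 * c) ≤ 2 * n * Real.log (Real.log n) / c := by
    rw [div_le_div_iff₀ (by positivity) (by positivity)]
    have h1 : 2 + Real.logb 2 c ≤ 4 * Real.log (Real.log n) := by linarith
    have h2 : (n : ℝ) * (2 + Real.logb 2 c) ≤ n * (4 * Real.log (Real.log n)) :=
      mul_le_mul_of_nonneg_left h1 (by positivity)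
    nlinarith [mul_le_mul_of_nonneg_right h2 (show (0 : ℝ) ≤ c by positivity)]
  have he3 : 12 * (n : ℝ) / c ≤ 12 * n * Real.log (Real.log n) / c := by
    apply div_le_div_of_nonneg_right _ (by positivity)
    nlinarith
  have he4 : 14 * (n : ℝ) * Real.log (Real.log n) / c ≤
      80 * n * Real.log (Real.log n) / Real.log n := by
    rw [div_le_div_iff₀ (by positivity) hL]
    have h1 : 0 ≤ (n : ℝ) * Real.log (Real.log n) := by positivity
    nlinarith [mul_le_mul_of_nonneg_left hLc h1]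
  have he5 : 12 * (n : ℝ) * Real.log (Real.log n) / c + 2 * n * Real.log (Real.log n) / c =
      14 * (n : ℝ) * Real.log (Real.log n) / c := by ring
  linarith

theorem growth_upper {m n : ℕ} (hm : 3 ≤ m) (hn : 2 ≤ n) : Real.logb 2 (r m n) ≤ n := by
  have h1 : (r m n : ℝ) ≤ 2 ^ n := by exact_mod_cast r_le hm hn
  have h2 : (0 : ℝ) < r m n := by exact_mod_cast one_le_r hm hn
  have := Real.logb_le_logb_of_le (b := 2) (by norm_num) h2 h1
  rwa [Real.logb_pow, Real.logb_self_eq_one (by norm_num), mul_one] at this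

/-- For all `m ≥ 3` and `n ≥ 16` the maximum `r(m,n)` exists and satisfies
`n - 80 n loglog n / log n ≤ log_2 r(m,n) ≤ n`; in particular `log_2 r(m,n) ~ n` for every fixed
`m ≥ 3`. -/
theorem result :
    (∀ m n : ℕ, 3 ≤ m → 16 ≤ n → IsGreatest (exponents m n) (r m n) ∧
      (n : ℝ) - 80 * n * Real.log (Real.log n) / Real.log n ≤ Real.logb 2 (r m n) ∧
      Real.logb 2 (r m n) ≤ n) ∧
    (∀ m : ℕ, 3 ≤ m → Tendsto (fun n : ℕ => Real.logb 2 (r m n) / n) atTop (𝓝 1)) := by
  refine ⟨?_, ?_⟩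
  · intro m n hm hn
    exact ⟨⟨r_mem hm (by omega), fun k hk => le_csSup (bddAbove_exponents m n) hk⟩,
      growth hm hn, growth_upper hm (by omega)⟩
  · intro m hm
    have hll : Tendsto (fun n : ℕ => Real.log (Real.log n) / Real.log n) atTop (𝓝 0) := by
      have h1 : Tendsto (fun x : ℝ => Real.log x / x) atTop (𝓝 0) :=
        Real.isLittleO_log_id_atTop.tendsto_div_nhds_zero
      exact h1.comp (Real.tendsto_log_atTop.comp tendsto_natCast_atTop_atTop)
    have hlow : Tendsto (fun n : ℕ => 1 - 80 * (Real.log (Real.log n) / Real.log n)) atTop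
        (𝓝 1) := by
      have := (hll.const_mul 80).const_sub 1
      simpa using this
    refine tendsto_of_tendsto_of_tendsto_of_le_of_le' hlow tendsto_const_nhds ?_ ?_
    · filter_upwards [eventually_ge_atTop 16] with n hn
      have hnR : (0 : ℝ) < n := by
        have : (16 : ℝ) ≤ n := by exact_mod_cast hn
        linarith
      rw [le_div_iff₀ hnR]
      have := growth (m := m) hm hn
      calc (1 - 80 * (Real.log (Real.log n) / Real.log n)) * n
          = (n : ℝ) - 80 * n * Real.log (Real.log n) / Real.log n := by ring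
        _ ≤ _ := this
    · filter_upwards [eventually_ge_atTop 2] with n hn
      have hnR : (0 : ℝ) < n := by
        have : (2 : ℝ) ≤ n := by exact_mod_cast hn
        linarith
      rw [div_le_iff₀ hnR, one_mul]
      exact growth_upper hm hn

end Pool.Agent.Results.MP_51d02f_co.GrowthRate
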